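import Pool.Agent.Helper42.NS.Obp
import Pool.Agent.Helper42.NS.Hfb
import Pool.Agent.Helper3.SG.Eta

/-! The gauge of forms on a projection with labels of the big system: `HfP s (prB B s) D c sg` is
`HH ((GD q D).prj B) s c sg`; robustness of the thickness `lamP` of projections. -/

set_option autoImplicit false

namespace Pool.Agent.Helper63.NS

open Finset Filter Topology Matrix Pool.Agent.Helper69.RK Pool.Agent.Helper31.EC Pool.Agent.Helper31.EC.Sp
open Pool.Agent.Helper40.EL Pool.Agent.Helper52.KP Pool.Agent.Helper89.LX Pool.Agent.Helper3.LF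
open Pool.Agent.Helper42.NS Pool.Agent.Helper3.SG

noncomputable section

variable {m q : ℕ}

/-- coordinates of a projected vector -/
theorem abs_prj_le (B : Matrix (Fin q) (Fin m) ℝ) {a : Fin m → ℝ} {K : ℝ} (hK : 0 ≤ K) (ha : ∀ i, |a i| ≤ K)
    (i : Fin q) : |∑ j, B i j * a j| ≤ mbd B * K := by
  have h1 : |∑ j, B i j * a j| ≤ ∑ j, |B i j| * K := by
    refine (Finset.abs_sum_le_sum_abs _ _).trans (Finset.sum_le_sum fun j _ => ?_)
    rw [abs_mul]
    exact mul_le_mul_of_nonneg_left (ha j) (abs_nonneg _)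
  rw [← Finset.sum_mul] at h1
  have h2 : ∑ j, |B i j| ≤ mbd B :=
    Finset.single_le_sum (f := fun i => ∑ j, |B i j|) (fun _ _ => Finset.sum_nonneg fun _ _ => abs_nonneg _)
      (Finset.mem_univ i)
  exact h1.trans (mul_le_mul_of_nonneg_right h2 hK)

/-- THE GAUGE OF A PROJECTION: forms on the space of the projection; it is used over labels of the big system -/
def prjG (G : Gg q) (B : Matrix (Fin q) (Fin m) ℝ) : Gg m where
  Frm := G.Frm
  cap := G.cap
  phi := fun n A a x t => G.phi n A (fun i => ∑ j, B i j * a j) (fun i => ∑ j, B i j * x j) t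
  gam := fun n A a x t => G.gam n A (fun i => ∑ j, B i j * a j) (fun i => ∑ j, B i j * x j) t
  one := G.one
  cap_one := G.cap_one
  D := G.D
  C := G.C * (mbd B + 1) ^ G.D
  C0 := mul_nonneg G.C0 (pow_nonneg (by have := mbd_nonneg B; linarith) _)
  phi_one := fun n a x t K hn hK ha hx ht => by
    have hB := mbd_nonneg B
    have h1 : ∀ (y : Fin m → ℝ), (∀ i, |y i| ≤ K) → ∀ i : Fin q, |∑ j, B i j * y j| ≤ (mbd B + 1) * K := by
      intro y hy i
      have := abs_prj_le B hK hy i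
      nlinarith
    have h2 := G.phi_one n (fun i => ∑ j, B i j * a j) (fun i => ∑ j, B i j * x j) t ((mbd B + 1) * K) hn
      (by positivity) (h1 a ha) (h1 x hx) (by nlinarith)
    refine h2.trans ?_
    rw [mul_assoc, ← mul_pow]
    apply mul_le_mul_of_nonneg_left _ G.C0
    apply pow_le_pow_left₀ (by positivity)
    nlinarith

variable {S : Sp}

/-- a label with form of the projected gauge as a label with two forms -/
def toFDp {s : Sys S m} {B : Matrix (Fin q) (Fin m) ℝ} {D : ℕ} {k : ℕ} (f : FFm (prjG (GD q D) B) (s.fin k)) :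
    FD (S.F k) (Mon (q + 1) D) where
  l := f.l
  g := f.A
  g' := f.A
  meas := fun ω ω' a b c d => ⟨f.hA ω ω' a b c d, f.hA ω ω' a b c d⟩

/-- a label with two forms as a label with form -/
def ofFDp {s : Sys S m} {B : Matrix (Fin q) (Fin m) ℝ} {D : ℕ} {k : ℕ} (x : FD (S.F k) (Mon (q + 1) D))
    (h : ∀ ω, x.l.T.μ ω ≠ 0 → Cpd (2 ^ ((2 * (D : ℝ) + 1 + 1) * (S.F k).n)) (x.g ω)) :
    FFm (prjG (GD q D) B) (s.fin k) where
  l := x.l
  A := x.g
  hA := fun ω ω' a b c d => (x.meas ω ω' a b c d).1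
  hc := h

theorem HH_of_HfP {s : Sys S m} {B : Matrix (Fin q) (Fin m) ℝ} {D : ℕ} {c σ : ℝ} (h : HfP s (prB B s) D c σ) :
    HH (prjG (GD q D) B) s c σ := by
  classical
  obtain ⟨x, hx, hl⟩ := h
  set f : LFm (prjG (GD q D) B) s := fun k =>
    if hk : ∀ ω, (x k).l.T.μ ω ≠ 0 → Cpd (2 ^ ((2 * (D : ℝ) + 1 + 1) * (S.F k).n)) ((x k).g ω) then ofFDp (x k) hk
    else FFm.triv (prjG (GD q D) B) (s.fin k) with hf
  have hcp : ∀ᶠ k in UF, ∀ ω, (x k).l.T.μ ω ≠ 0 → Cpd (2 ^ ((2 * (D : ℝ) + 1 + 1) * (S.F k).n)) ((x k).g ω) := by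
    filter_upwards [hx 1 one_pos] with k hk ω hω
    exact (hk.2.2.1 ω hω).1
  have hfk : ∀ᶠ k in UF, ∃ hk, f k = ofFDp (x k) hk := by
    filter_upwards [hcp] with k hk
    exact ⟨hk, by rw [hf]; exact dif_pos hk⟩
  have hlk : ∀ A : Part S, (∀ η : ℝ, 0 < η → ∀ᶠ k in UF, (x k).l.leak (A k) ≤ η * (S.F k).n) →
      Nul S (fun k => (f.lab k).leak (A k)) := by
    intro A hA
    show Tendsto (fun k => (f.lab k).leak (A k) / (S.F k).n) UF (𝓝 0)
    rw [Metric.tendsto_nhds]
    intro e he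
    filter_upwards [hfk, hA (e / 2) (by linarith)] with k ⟨hk, h1⟩ h2
    have h3 : (f.lab k).leak (A k) = (x k).l.leak (A k) := by
      show (f k).l.leak (A k) = _
      rw [h1]; rfl
    have hn := (S.F k).pos
    rw [Real.dist_eq, sub_zero, h3, abs_of_nonneg (div_nonneg (FLab.leak_nonneg _ _) hn.le), div_lt_iff₀ hn]
    nlinarith
  refine ⟨f, ⟨hlk _ fun η hη => ?_, hlk _ fun η hη => ?_⟩, fun e he => ?_, fun e he => ?_⟩
  · filter_upwards [hx η hη] with k hk using hk.1
  · filter_upwards [hx η hη] with k hk using hk.2.1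
  · filter_upwards [hfk, hx e he] with k ⟨hk, h1⟩ h2
    rw [h1]
    exact pb_of_compl h2.2.2.2.1
  · have h3 := (hl e he).eventually (gt_mem_nhds he)
    filter_upwards [hfk, h3] with k ⟨hk, h1⟩ h2
    rw [h1]
    exact pb_of_compl h2.le

theorem HfP_of_HH {s : Sys S m} {B : Matrix (Fin q) (Fin m) ℝ} {D : ℕ} {c σ : ℝ}
    (h : HH (prjG (GD q D) B) s c σ) : HfP s (prB B s) D c σ := by
  obtain ⟨f, hf, hb, hl⟩ := h
  refine ⟨fun k => toFDp (f k), fun η hη => ?_, fun e he => ?_⟩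
  · filter_upwards [hf.1.eventually (gt_mem_nhds hη), hf.2.eventually (gt_mem_nhds hη), hb η hη] with k a b d
    rw [div_lt_iff₀ (S.F k).pos] at a b
    exact ⟨a.le, b.le, fun ω hω => ⟨(f k).hc ω hω, (f k).hc ω hω⟩, pb_compl_le d, pb_compl_le d⟩
  · rw [Metric.tendsto_nhds]
    intro ε hε
    have he2 : 0 < min e (ε / 2) := lt_min he (by linarith)
    filter_upwards [hl _ he2] with k hk
    rw [Real.dist_eq, sub_zero, abs_of_nonneg (FSp.pb_nonneg _ _)]
    have h1 := (f k).gp_anti (show 2 * (σ - e) ≤ 2 * (σ - min e (ε / 2)) by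
      have := min_le_left e (ε / 2)
      linarith)
    have h2 : (toFDp (f k)).l.T.pb (fun ω => ¬ 2 ^ (2 * (σ - e) * (S.F k).n) ≤
        sga (prB B s) D k ((toFDp (f k)).l.p.π ω) ((toFDp (f k)).g ω)) ≤ min e (ε / 2) :=
      pb_compl_le (hk.trans h1)
    have := min_le_right e (ε / 2)
    linarith

/-- THE BRIDGE: forms on a projection over labels of the big system -/
theorem HfP_iff_HH {s : Sys S m} {B : Matrix (Fin q) (Fin m) ℝ} {D : ℕ} {c σ : ℝ} :
    HfP s (prB B s) D c σ ↔ HH (prjG (GD q D) B) s c σ := ⟨HH_of_HfP, HfP_of_HH⟩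

theorem HfP_iff_psi {s : Sys S m} {B : Matrix (Fin q) (Fin m) ℝ} {D : ℕ} {c σ : ℝ} :
    HfP s (prB B s) D c σ ↔ psi (prjG (GD q D) B) s c σ = 1 := HfP_iff_HH.trans (HH_iff s)

/-- `HfP` does not change in extensions -/
theorem HfP_pull {T : Sp} (p : Pj T S) {s : Sys S m} {B : Matrix (Fin q) (Fin m) ℝ} {D : ℕ} {c σ : ℝ} :
    HfP (s.pull p) (prB B (s.pull p)) D c σ ↔ HfP s (prB B s) D c σ := by
  rw [HfP_iff_psi, HfP_iff_psi, psi_pull]

theorem lamP_pull {T : Sp} (p : Pj T S) (s : Sys S m) (B : Matrix (Fin q) (Fin m) ℝ) (D : ℕ) (c : ℝ) :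
    lamP (s.pull p) (prB B (s.pull p)) D c = lamP s (prB B s) D c := by
  unfold lamP
  simp only [HfP_pull]

/-- systems which are robust for the forms of degree at most `D` on the projection `B` -/
def RobP (s : Sys S m) (B : Matrix (Fin q) (Fin m) ℝ) (D : ℕ) : Prop :=
  ∀ c σ : ℝ, RobF (psiF (prjG (GD q D) B) c σ) s

/-- robustness from a robust list of gauges -/
theorem RobP.of_list {ι : Type} {G : ι → Gg m} {s : Sys S m} (h : RobustG G s) {B : Matrix (Fin q) (Fin m) ℝ}
    {D : ℕ} {i : ι} (hi : G i = prjG (GD q D) B) : RobP s B D := by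
  intro c σ
  have := h.robF i c σ
  rwa [hi] at this

namespace RobP

variable {s : Sys S m} {B : Matrix (Fin q) (Fin m) ℝ} {D : ℕ}

/-- ROBUSTNESS: forms on the projection, on an event of positive probability of an extension -/
theorem HfP_im (h : RobP s B D) {T : Sp} (p : Pj T S) (E : ∀ k, (T.F k).Ω → Prop) (hE : 0 < ul (T.pr E))
    {c σ : ℝ} : HfP (s.im p E hE) (prB B (s.im p E hE)) D c σ ↔ HfP s (prB B s) D c σ := by
  have h1 : psi (prjG (GD q D) B) (s.im p E hE) c σ = psi (prjG (GD q D) B) s c σ := h c σ T p E hE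
  rw [HfP_iff_psi, HfP_iff_psi, h1]

/-- ROBUSTNESS of the thickness of a projection -/
theorem lamP_im (h : RobP s B D) {T : Sp} (p : Pj T S) (E : ∀ k, (T.F k).Ω → Prop) (hE : 0 < ul (T.pr E))
    (c : ℝ) : lamP (s.im p E hE) (prB B (s.im p E hE)) D c = lamP s (prB B s) D c := by
  unfold lamP
  simp only [h.HfP_im p E hE]

theorem im (h : RobP s B D) {T : Sp} (p : Pj T S) (E : ∀ k, (T.F k).Ω → Prop) (hE : 0 < ul (T.pr E)) :
    RobP (s.im p E hE) B D := fun c σ => (h c σ).im p E hE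

theorem pull (h : RobP s B D) {T : Sp} (p : Pj T S) : RobP (s.pull p) B D := fun c σ => (h c σ).pull p

theorem rest (h : RobP s B D) (E : ∀ k, (S.F k).Ω → Prop) (hE : 0 < ul (S.pr E)) : RobP (s.rest E hE) B D :=
  fun c σ => (h c σ).rest E hE

theorem HfP_rest (h : RobP s B D) (E : ∀ k, (S.F k).Ω → Prop) (hE : 0 < ul (S.pr E)) {c σ : ℝ} :
    HfP (s.rest E hE) (prB B (s.rest E hE)) D c σ ↔ HfP s (prB B s) D c σ := by
  have h1 := h.HfP_im (Pj.id S) E hE (c := c) (σ := σ)
  rw [← h1, ← HfP_pull (imq (Pj.id S) E) (s := s.im (Pj.id S) E hE)]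
  exact Iff.rfl

theorem lamP_rest (h : RobP s B D) (E : ∀ k, (S.F k).Ω → Prop) (hE : 0 < ul (S.pr E)) (c : ℝ) :
    lamP (s.rest E hE) (prB B (s.rest E hE)) D c = lamP s (prB B s) D c := by
  unfold lamP
  simp only [h.HfP_rest E hE]

end RobP

/-- robustness from a list of gauges which contains the gauge of the projection -/
theorem robP_of {ι : Type} {G : ι → Gg m} {s : Sys S m} (h : RobustG G s) {B : Matrix (Fin q) (Fin m) ℝ}
    {D : ℕ} (hi : ∃ i, G i = prjG (GD q D) B) : RobP s B D := by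
  obtain ⟨i, hi⟩ := hi
  exact RobP.of_list h hi

/-- the list of a countable family of gauges -/
def encG {ι : Type} [Encodable ι] (G : ι → Gg m) (n : ℕ) : Gg m :=
  match (Encodable.decode n : Option ι) with
  | some i => G i
  | none => GD m 0

theorem encG_encode {ι : Type} [Encodable ι] (G : ι → Gg m) (i : ι) : encG G (Encodable.encode i) = G i := by
  unfold encG
  rw [Encodable.encodek]

theorem robustG_of_enc {ι : Type} [Encodable ι] {G : ι → Gg m} {s : Sys S m} (h : RobustG (encG G) s) :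
    RobustG G s := by
  intro i T p E hE c σ
  have := h (Encodable.encode i) T p E hE c σ
  rwa [encG_encode] at this

/-- the gauge list: polynomials of all degrees, and polynomials of all degrees on countably many projections -/
def stdG {ι : Type} (q : ι → ℕ) (B : ∀ i, Matrix (Fin (q i)) (Fin m) ℝ) : ℕ ⊕ (ι × ℕ) → Gg m :=
  Sum.elim (fun D => GD m D) (fun w => prjG (GD (q w.1) w.2) (B w.1))

theorem stdG_H {ι : Type} {q : ι → ℕ} {B : ∀ i, Matrix (Fin (q i)) (Fin m) ℝ} {s : Sys S m}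
    (h : RobustG (stdG q B) s) : RobH s := fun D T p E hE c σ => h (Sum.inl D) T p E hE c σ

theorem stdG_P {ι : Type} {q : ι → ℕ} {B : ∀ i, Matrix (Fin (q i)) (Fin m) ℝ} {s : Sys S m}
    (h : RobustG (stdG q B) s) (i : ι) (D : ℕ) : RobP s (B i) D := RobP.of_list h (i := Sum.inr (i, D)) rfl

end

end Pool.Agent.Helper63.NS
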